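import Pool.Agent.H744.FB.Main

set_option autoImplicit false
set_option maxHeartbeats 4000000

/-!
# Bases of a lattice made of facet vectors: dimension at most eight, and slowly growing minima

A facet vector of a lattice `L` in `ℝ^n` is a nonzero vector `v` of `L` such that the Voronoi cells of
`0` and `v` meet in a face of dimension `n - 1`.

1. Every lattice in `ℝ^n`, `n ≤ 8`, has a basis consisting of facet vectors.
2. More generally, for any `n`, let `f_1, …, f_k` attain the first `k` successive minima of `L`: `f_i` is a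
   shortest vector of `L` outside the span of `f_1, …, f_(i-1)`. If `k ≤ 7`, or if
   `|f_1|² + … + |f_(i-1)|² < c |f_i|²` for all `i ≤ k`, where `c = 68/9` if `i = n` and `c = 7` if `i < n`,
   then the lattice of the vectors of `L` in the span of `f_1, …, f_k` has a basis consisting of facet
   vectors of `L`.

Method. Let `W` be the span of `f_1, …, f_(i-1)`, `W'` the span of `f_1, …, f_i`. The lattice vectors of
`W'` lie in layers parallel to `W`; let `v` be a shortest vector in the first layer. By rounding,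
`|v|² ≤ t + (|f_1|² + … + |f_(i-1)|²) / 4`, where `t` is the squared distance of the first layer from
`W`. Suppose that `v = u + w` with nonzero `u, w` in `L` and `u · w ≥ 0`; then `|u|² + |w|² ≤ |v|²`, so
`u` and `w` are shorter than `v`. If they are in `W'`, they are not in the layers `1, -1`, hence
not in the layer `0`, and one of them is in a layer of number at least three in absolute value, so
`|u|² + |w|² ≥ max (|f_i|², 9 t) + |f_i|²`, which contradicts the upper bound. If they are not in
`W'`, then `|v|² ≥ 2 |f_i|²`, a contradiction because `|v| ≤ |f_i|` or `t ≤ |f_i|² / 4`. So `v` is not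
such a sum, which means that it is a facet vector.
-/

namespace Pool.Agent.Results.MP_ec85c3_co.DimensionAtMostEight

open Module Pool.Agent.H744.FB

variable {n : ℕ}

/-- The Voronoi cell of the point `x` with respect to the lattice `L`. -/
def voronoiCell (L : Submodule ℤ (EuclideanSpace ℝ (Fin n))) (x : EuclideanSpace ℝ (Fin n)) :
    Set (EuclideanSpace ℝ (Fin n)) :=
  {y | ∀ z ∈ L, ‖y - x‖ ≤ ‖y - z‖}

/-- The dimension of the affine span of a set. -/
noncomputable def affineDim (S : Set (EuclideanSpace ℝ (Fin n))) : ℕ :=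
  finrank ℝ (affineSpan ℝ S).direction

/-- `v` is a facet vector of `L`: a nonzero vector of `L` such that the Voronoi cells of `0` and `v`
meet in a set of dimension `n - 1`. -/
def IsFacetVector (L : Submodule ℤ (EuclideanSpace ℝ (Fin n))) (v : EuclideanSpace ℝ (Fin n)) :
    Prop :=
  v ∈ L ∧ v ≠ 0 ∧ affineDim (voronoiCell L 0 ∩ voronoiCell L v) = n - 1

/-- `L` is a lattice in `ℝ^n`: it is discrete and spans `ℝ^n`. -/
def IsLattice (L : Submodule ℤ (EuclideanSpace ℝ (Fin n))) : Prop :=
  DiscreteTopology L ∧ Submodule.span ℝ (L : Set (EuclideanSpace ℝ (Fin n))) = ⊤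

/-- `L` has a basis which consists of facet vectors. -/
def HasFacetBasis (L : Submodule ℤ (EuclideanSpace ℝ (Fin n))) : Prop :=
  ∃ b : Module.Basis (Fin n) ℤ L, ∀ i, IsFacetVector L (b i : EuclideanSpace ℝ (Fin n))

/-- The real span of the vectors before `f i`. -/
noncomputable def spanBefore {k : ℕ} (f : Fin k → EuclideanSpace ℝ (Fin n)) (i : Fin k) :
    Submodule ℝ (EuclideanSpace ℝ (Fin n)) :=
  Submodule.span ℝ (f '' {j | j < i})

/-- `f` attains the first `k` successive minima of `L`: `f i` is a shortest vector of `L` outside the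
real span of the previous ones. -/
def AttainsMinima {k : ℕ} (L : Submodule ℤ (EuclideanSpace ℝ (Fin n)))
    (f : Fin k → EuclideanSpace ℝ (Fin n)) : Prop :=
  ∀ i, f i ∈ L ∧ f i ∉ spanBefore f i ∧ ∀ x ∈ L, x ∉ spanBefore f i → ‖f i‖ ≤ ‖x‖

/-- The growth condition: `|f_1|² + … + |f_(i-1)|² < c |f_i|²` for all `i ≤ k`, where `c = 68/9` if
`i = n` and `c = 7` if `i ≠ n` (here the indices start with `1`). -/
def GrowthCondition {k : ℕ} (f : Fin k → EuclideanSpace ℝ (Fin n)) : Prop :=
  ∀ i : Fin k, ∑ j ∈ Finset.univ.filter (· < i), ‖f j‖ ^ 2 <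
    (if (i : ℕ) + 1 = n then 68 / 9 else 7) * ‖f i‖ ^ 2

/-- `v` is a basis of the lattice of the vectors of `L` in the real span of `f`. -/
def IsBasisInSpan {k : ℕ} (L : Submodule ℤ (EuclideanSpace ℝ (Fin n)))
    (f v : Fin k → EuclideanSpace ℝ (Fin n)) : Prop :=
  LinearIndependent ℝ v ∧ ∀ x, x ∈ Submodule.span ℤ (Set.range v) ↔
    x ∈ L ∧ x ∈ Submodule.span ℝ (Set.range f)

theorem facet (L : Submodule ℤ (EuclideanSpace ℝ (Fin n))) [DiscreteTopology L]
    {v : EuclideanSpace ℝ (Fin n)} (h : Irred L v) : IsFacetVector L v := by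
  refine ⟨h.1, h.2.1, ?_⟩
  have h1 := NFACET.t_FACET L v h
  have h2 : voronoiCell L 0 ∩ voronoiCell L v = {x : EuclideanSpace ℝ (Fin n) |
          ∀ w ∈ L, ‖x‖ ≤ ‖x - w‖ ∧ ‖x - v‖ ≤ ‖x - w‖} := by
    ext x
    constructor
    · rintro ⟨ha, hb⟩ w hw
      have := ha w hw
      rw [sub_zero] at this
      exact ⟨this, hb w hw⟩
    · intro h
      refine ⟨fun w hw => ?_, fun w hw => (h w hw).2⟩
      rw [sub_zero]; exact (h w hw).1
  unfold affineDim
  rw [h2]; exact h1

/-- **Bases of facet vectors.** -/
theorem result :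
    (∀ n ≤ 8, ∀ L : Submodule ℤ (EuclideanSpace ℝ (Fin n)), IsLattice L → HasFacetBasis L) ∧
    (∀ (n : ℕ) (L : Submodule ℤ (EuclideanSpace ℝ (Fin n))), DiscreteTopology L →
      ∀ (k : ℕ) (f : Fin k → EuclideanSpace ℝ (Fin n)), AttainsMinima L f →
      (k ≤ 7 ∨ GrowthCondition f) →
      ∃ v : Fin k → EuclideanSpace ℝ (Fin n), (∀ i, IsFacetVector L (v i)) ∧
        IsBasisInSpan L f v) := by
  refine ⟨?_, ?_⟩
  · rintro n hn L ⟨hL, hspan⟩
    obtain ⟨f, hf⟩ := exists_minSys L hspan n le_rfl
    obtain ⟨b, hb⟩ := basis_of_cl L f (cl_small L f hf (by omega))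
    exact ⟨b, fun i => facet L (hb i)⟩
  · intro n L hL k f hf hS
    have hcl : Cl L f := by
      rcases hS with hk | hS
      · exact cl_small L f hf (Or.inl hk)
      · refine cl_of_minSys L k f hf fun i => ?_
        have h := hS i
        split_ifs at h with h1
        · exact Or.inr ⟨h1.symm, h⟩
        · exact Or.inl h
    obtain ⟨v, hvli, hvirr, hvW, hLW⟩ := hcl
    refine ⟨v, fun i => facet L (hvirr i), hvli, fun x => ⟨fun hx => ⟨?_, ?_⟩, fun hx => ?_⟩⟩
    · have : Submodule.span ℤ (Set.range v) ≤ L := by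
        rw [Submodule.span_le]; rintro _ ⟨i, rfl⟩; exact (hvirr i).1
      exact this hx
    · have h1 : Submodule.span ℝ (Set.range v) ≤ Submodule.span ℝ (Set.range f) := by
        rw [Submodule.span_le]; rintro _ ⟨i, rfl⟩; exact hvW i
      exact h1 (Submodule.span_subset_span ℤ ℝ _ hx)
    · exact hLW x hx.1 hx.2

end Pool.Agent.Results.MP_ec85c3_co.DimensionAtMostEight
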